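import Mathlib

namespace Pool.Agent.H.MP_f59cb1_co

def DD (t : ℤ) : ℤ := 41835*t^3 + 450711*t^4

def SS (t r z : ℤ) : ℤ := z * (1666162 - 414187*r + 450711*r^2 - 3880815*t + 2052624*t*r + 125505*t*r^2 + 1184793*t^2 - 2536926*t^2*r + 1352133*t^2*r^2 - 1802844*t^3 + 1802844*t^3*r - 4420507*(z^2) + 414187*r*(z^2) - 450711*r^2*(z^2) + 3880815*t*(z^2) - 2303634*t*r*(z^2) - 1352133*t^2*(z^2) + 2754345*(z^2)^2)

def PP (m x y : ℤ) : ℤ :=
  m * ((m-x)^2*(m-1-x)^2*(m+y)*(m-1+y) + (m-y)^2*(m-1-y)^2*(m+x)*(m-1+x))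
    - 2*(m-1)*(m-x)^2*(m-y)^2*(m-1+x)*(m-1+y)

def UU (m x y : ℤ) : ℤ := (m+x-1)*(m-x)^2*y^3

def QQ (m x y : ℤ) : ℤ :=
  DD (x+y) * PP m x y + (UU m x y * SS (x+y) (2*m-(x+y)) (x-y+1) - UU m y x * SS (x+y) (2*m-(x+y)) (x-y-1))

theorem q00 (y d w : ℤ) (hy : 0 ≤ y) (hd : 0 ≤ d) (hw : 0 ≤ w) : 0 ≤ QQ (y+0+0) (y+0) y := by
  have h : QQ (y+0+0) (y+0) y =
      0 := by
    unfold QQ DD SS PP UU; ring
  rw [h]

theorem q01 (y d w : ℤ) (hy : 0 ≤ y) (hd : 0 ≤ d) (hw : 0 ≤ w) : 0 ≤ QQ (y+0+(w+1)) (y+0) y := by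
  have h : QQ (y+0+(w+1)) (y+0) y =
      0 := by
    unfold QQ DD SS PP UU; ring
  rw [h]

theorem q10 (y d w : ℤ) (hy : 0 ≤ y) (hd : 0 ≤ d) (hw : 0 ≤ w) : 0 ≤ QQ (y+(d+1)+0) (y+(d+1)) y := by
  have h : QQ (y+(d+1)+0) (y+(d+1)) y =
      (d*(d*((985092)+d*((6708883)+d*((21555971)+d*((43614435)+d*((60587075)+d*((57677617)+d*((35619153)+
      d*((12735961)+d*(1989605)))))))))))+y*((d*(d*((8942402)+d*((51764965)+d*((133935714)+d*((210795433)+
      d*((230747090)+d*((182749047)+d*((99360230)+d*((32283259)+d*(4607268)))))))))))+y*((d*((6810744)+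
      d*((52149462)+d*((153537585)+d*((253387473)+d*((305823582)+d*((316341792)+d*((249332709)+d*((116662233)+
      d*(23036340))))))))))+y*((d*((20432232)+d*((93030414)+d*((163024135)+d*((174078818)+d*((209377716)+
      d*((247522252)+d*((163262813)+d*(41465412)))))))))+y*((d*((20432232)+d*((60456590)+d*((57747688)+
      d*((47076720)+d*((92826452)+d*((95723938)+d*(32250876))))))))+y*(d*((6810744)+d*((11618328)+
      d*((3205056)+d*((8012640)+d*((18829704)+d*(9214536))))))))))) := by
    unfold QQ DD SS PP UU; ring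
  rw [h]; positivity

theorem q11 (y d w : ℤ) (hy : 0 ≤ y) (hd : 0 ≤ d) (hw : 0 ≤ w) : 0 ≤ QQ (y+(d+1)+(w+1)) (y+(d+1)) y := by
  have h : QQ (y+(d+1)+(w+1)) (y+(d+1)) y =
      ((15761472+w*(59105520+w*(86688096+w*(62060796+w*(21672024+w*(2955276))))))+d*((83393624+w*(291220056+
      w*(400057382+w*(269303796+w*(88317734+w*(11244888))))))+d*((164640932+w*(529944164+w*(683113159+
      w*(435507748+w*(134560416+w*(15877503))))))+d*((131663866+w*(374197946+w*(471006256+w*(304258002+
      w*(92661361+w*(10166652))))))+d*((21187699+w*(w*(56515819+w*(85667993+w*(32875124+w*(3354678))))))+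
      d*((46598946+w*(w*(39652885+w*(60018628+w*(18607860+w*(1226628))))))+d*((196236819+w*(282177060+
      w*(226031233+w*(93689154+w*(14635948+w*(450711))))))+d*((240680902+w*(338831010+w*(204781838+
      w*(53110670+w*(4156557)))))+d*((140695081+w*(167324560+w*(72014037+w*(9765405))))+d*((40978694+
      w*(37106716+w*(8863983)))+d*(4794029+w*(2804424))))))))))))+y*(((143116176+w*(515998728+w*(722122896+
      w*(488899224+w*(159843792+w*(20184912))))))+d*((728618464+w*(2467079036+w*(3221761904+w*(2017508392+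
      w*(602623584+w*(68416524))))))+d*((1465738584+w*(4644768782+w*(5650700230+w*(3242524437+w*(863936907+
      w*(84140100))))))+d*((1462628516+w*(4296453057+w*(4905961378+w*(2560173032+w*(583571436+w*(43770276))))))+
      d*((844928925+w*(2138990364+w*(2342310607+w*(1102123492+w*(195671826+w*(7861788))))))+d*((621157419+
      w*(1061892708+w*(984043396+w*(374834478+w*(42321804)))))+d*((772542774+w*(1031671548+w*(634935772+
      w*(154124207+w*(9064299)))))+d*((636528194+w*(704651803+w*(286028114+w*(35155458))))+d*((276523521+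
      w*(224888578+w*(47725287)))+d*((58524655+w*(26241396))+d*(4607268)))))))))))+y*(((512538240+
      w*(1747230888+w*(2278353240+w*(1409941092+w*(411054816+w*(44774316))))))+d*((2383951728+w*(7590664872+
      w*(9142952784+w*(5125310088+w*(1317881016+w*(121999824))))))+d*((4375182204+w*(12963123714+
      w*(14331002949+w*(7120379841+w*(1539144564+w*(109676700))))))+d*((3982986768+w*(10933359930+
      w*(11068268976+w*(4709786601+w*(777879564+w*(32451192))))))+d*((2016307203+w*(4938815853+w*(4580366694+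
      w*(1559045991+w*(154575420)))))+d*((1027919346+w*(1753598937+w*(1325836608+w*(303347655+w*(9014220)))))+
      d*((923001348+w*(995460453+w*(437878317+w*(49077420))))+d*((599313018+w*(440523141+w*(90542832)))+
      d*((190178205+w*(73515972))+d*(23036340))))))))))+y*(((945621912+w*(2854920012+w*(3155931948+
      w*(1551225636+w*(326225916+w*(21634128))))))+d*((3807438880+w*(10698599908+w*(10821208160+w*(4705092356+
      w*(838745712+w*(43268256))))))+d*((5850970814+w*(15274722099+w*(13974844725+w*(5141252054+w*(704823156+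
      w*(21634128))))))+d*((4180472508+w*(10215153486+w*(8411585057+w*(2412192784+w*(198312840)))))+
      d*((1450920299+w*(3306522818+w*(2488542507+w*(464870650+w*(6009480)))))+d*((568713483+w*(790532198+
      w*(471259631+w*(40063200))))+d*((518447339+w*(355658755+w*(84733668)))+d*((250800905+w*(87538092))+
      d*(41465412)))))))))+y*(((750337944+w*(1929560304+w*(1668201576+w*(549074016+w*(60094800)))))+
      d*((2434493448+w*(5889289688+w*(4685553464+w*(1330514592+w*(120189600)))))+d*((2786609566+w*(6364654024+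
      w*(4606235504+w*(1027829256+w*(60094800)))))+d*((1240131000+w*(2791654212+w*(1869681700+w*(260410800))))+
      d*((183411292+w*(444175316+w*(321862864+w*(14022120))))+d*((154679148+w*(102917476+w*(41064780)))+
      d*((141195670+w*(45471732))+d*(32250876))))))))+y*((189899568+w*(413452224+w*(257205744+w*(33653088))))+
      d*((462729960+w*(969529440+w*(580916400+w*(67306176))))+d*((329720136+w*(682676928+w*(398228208+
      w*(33653088))))+d*((39261936+w*(118587072+w*(82530192)))+d*((w*(w*(8012640)))+d*((26842344+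
      w*(8012640))+d*(9214536))))))))))) := by
    unfold QQ DD SS PP UU; ring
  rw [h]; positivity

theorem qsymm (m x y : ℤ) : QQ m x y = QQ m y x := by
  unfold QQ DD SS PP UU; ring

theorem qle (m x y : ℕ) (h1 : y ≤ x) (h2 : x ≤ m) : 0 ≤ QQ m x y := by
  obtain ⟨d, rfl⟩ := Nat.exists_eq_add_of_le h1
  obtain ⟨w, rfl⟩ := Nat.exists_eq_add_of_le h2
  have hy : (0:ℤ) ≤ y := Int.natCast_nonneg y
  rcases d with _ | d <;> rcases w with _ | w <;> push_cast
  · simpa using q00 y 0 0 hy le_rfl le_rfl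
  · simpa using q01 y 0 w hy le_rfl (Int.natCast_nonneg w)
  · simpa using q10 y d 0 hy (Int.natCast_nonneg d) le_rfl
  · simpa using q11 y d w hy (Int.natCast_nonneg d) (Int.natCast_nonneg w)

theorem qnn (m x y : ℕ) (h1 : y ≤ m) (h2 : x ≤ m) : 0 ≤ QQ m x y := by
  rcases le_total y x with h | h
  · exact qle m x y h h2
  · rw [qsymm]; exact qle m y x h h1

end Pool.Agent.H.MP_f59cb1_co
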