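import Pool.Agent.H.MP_f59cb1_co.A

namespace Pool.Agent.H.MP_f59cb1_co
open Finset

theorem b1 (m x : ℕ) : (m.choose (x+1) : ℤ) * (x+1) = m.choose x * ((m:ℤ) - x) := by
  rcases le_or_gt x m with h | h
  · have := Nat.choose_succ_right_eq m x
    zify [h] at this
    exact this
  · rw [Nat.choose_eq_zero_of_lt h, Nat.choose_eq_zero_of_lt (by omega)]; simp

theorem b2 (N x : ℕ) : ((N+1).choose x : ℤ) * ((N:ℤ) + 1 - x) = N.choose x * ((N:ℤ) + 1) := by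
  rcases le_or_gt x (N+1) with h | h
  · have := Nat.choose_mul_succ_eq N x
    zify [h] at this
    exact this.symm
  · rw [Nat.choose_eq_zero_of_lt h, Nat.choose_eq_zero_of_lt (by omega)]; simp

theorem b3 (n x : ℕ) : ((n+1+x).choose x : ℤ) * ((n:ℤ) + 1) = (n+x).choose x * ((n:ℤ) + x + 1) := by
  have := b2 (n+x) x
  rw [show n+1+x = n+x+1 by ring]
  push_cast at this
  linear_combination this

theorem b4 (n x : ℕ) : ((n+(x+1)).choose (x+1) : ℤ) * ((x:ℤ) + 1) = (n+x).choose x * ((n:ℤ) + x + 1) := by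
  have := Nat.add_one_mul_choose_eq (n+x) x
  zify at this
  rw [show n+(x+1) = n+x+1 by ring]
  linear_combination -this

def aa (n k : ℕ) : ℤ := (n.choose k : ℤ) ^ 2 * ((n + k).choose k : ℤ)

def cc (n k : ℕ) : ℤ := ((n+2).choose k : ℤ) ^ 2 * ((n + k).choose k : ℤ)

theorem r0 (n x : ℕ) : ((n:ℤ)+1) * (n+2) * aa (n+2) x = cc n x * (((n:ℤ)+2+x-1) * (n+2+x)) := by
  have h1 := b3 n x
  have h2 := b3 (n+1) x
  unfold aa cc
  rw [show n+1+1 = n+2 by ring] at h2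
  push_cast at h2
  linear_combination ((n+2).choose x : ℤ)^2 * (((n:ℤ)+1) * h2 + ((n:ℤ)+x+2) * h1)

theorem r1 (n x : ℕ) : ((n:ℤ)+2)^2 * (n+1) * aa (n+1) x = cc n x * (((n:ℤ)+2-x)^2 * (n+2+x-1)) := by
  have h1 := b3 n x
  have h2 := b2 (n+1) x
  unfold aa cc
  rw [show n+1+1 = n+2 by ring] at h2
  push_cast at h2
  have h3 : (((n+1).choose x : ℤ) * ((n:ℤ)+2))^2 = (((n+2).choose x : ℤ) * ((n:ℤ)+2-x))^2 := by
    congr 1; linear_combination -h2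
  linear_combination (((n+1).choose x : ℤ) * ((n:ℤ)+2))^2 * h1 + ((n+x).choose x : ℤ) * ((n:ℤ)+x+1) * h3

theorem r2 (n x : ℕ) : ((n:ℤ)+2)^2 * (n+1)^2 * aa n x = cc n x * (((n:ℤ)+2-x)^2 * (n+2-1-x)^2) := by
  have h1 := b2 n x
  have h2 := b2 (n+1) x
  unfold aa cc
  rw [show n+1+1 = n+2 by ring] at h2
  push_cast at h2
  have h3 : ((n.choose x : ℤ) * ((n:ℤ)+2) * (n+1))^2 = (((n+2).choose x : ℤ) * ((n:ℤ)+2-x) * (n+2-1-x))^2 := by
    congr 1; linear_combination -((n:ℤ)+2) * h1 - ((n:ℤ)+1-x) * h2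
  linear_combination ((n+x).choose x : ℤ) * h3

theorem r3 (n x : ℕ) : cc n (x+1) * ((x:ℤ)+1)^3 = cc n x * (((n:ℤ)+2+x-1) * (n+2-x)^2) := by
  have h1 := b4 n x
  have h2 := b1 (n+2) x
  unfold cc
  push_cast at h2
  have h3 : (((n+2).choose (x+1) : ℤ) * ((x:ℤ)+1))^2 = (((n+2).choose x : ℤ) * ((n:ℤ)+2-x))^2 := by
    rw [h2]
  linear_combination (((n+2).choose (x+1) : ℤ) * ((x:ℤ)+1))^2 * h1 + ((n+x).choose x : ℤ) * ((n:ℤ)+x+1) * h3

theorem tele (n t : ℕ) (S : ℤ → ℤ) :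
    ∑ p ∈ antidiagonal t, cc n p.1 * cc n p.2 *
      (UU (n+2) p.1 p.2 * S ((p.1:ℤ) - p.2 + 1) - UU (n+2) p.2 p.1 * S ((p.1:ℤ) - p.2 - 1)) = 0 := by
  simp only [mul_sub, Finset.sum_sub_distrib, sub_eq_zero]
  rcases t with _ | t
  · simp [UU]
  conv_lhs => rw [Finset.Nat.sum_antidiagonal_succ']
  conv_rhs => rw [Finset.Nat.sum_antidiagonal_succ]
  congr 1
  · simp [UU]
  refine Finset.sum_congr rfl fun p _ => ?_
  have h1 := r3 n p.1
  have h2 := r3 n p.2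
  unfold UU
  push_cast
  rw [show (p.1:ℤ) - (p.2 + 1) + 1 = p.1 - p.2 by ring, show (p.1:ℤ) + 1 - p.2 - 1 = p.1 - p.2 by ring]
  linear_combination S ((p.1:ℤ) - p.2) * (cc n p.1 * (((n:ℤ)+2+p.1-1) * (n+2-p.1)^2) * h2
    - cc n p.2 * (((n:ℤ)+2+p.2-1) * (n+2-p.2)^2) * h1)

theorem cc_nn (n x : ℕ) : 0 ≤ cc n x := by unfold cc; positivity

theorem pt (n x y : ℕ) : ((n:ℤ)+2)^4 * (n+1)^3 * ((aa (n+2) x * aa n y - aa (n+1) x * aa (n+1) y)
    + (aa (n+2) y * aa n x - aa (n+1) y * aa (n+1) x)) = cc n x * cc n y * PP (n+2) x y := by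
  have e1 := congrArg₂ (· * ·) (r0 n x) (r2 n y)
  have e2 := congrArg₂ (· * ·) (r0 n y) (r2 n x)
  have e3 := congrArg₂ (· * ·) (r1 n x) (r1 n y)
  unfold PP
  linear_combination ((n:ℤ)+2) * e1 + ((n:ℤ)+2) * e2 - 2 * ((n:ℤ)+1) * e3

theorem key (n t : ℕ) :
    0 ≤ ∑ p ∈ antidiagonal t, (aa (n+2) p.1 * aa n p.2 - aa (n+1) p.1 * aa (n+1) p.2) := by
  rcases Nat.eq_zero_or_pos t with rfl | ht
  · simp [aa]
  have hD : 0 < DD t := by
    have : (0:ℤ) < t := by exact_mod_cast ht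
    unfold DD; positivity
  have hK : (0:ℤ) < DD t * (((n:ℤ)+2)^4 * (n+1)^3 * 2) := by positivity
  have hs := Finset.Nat.sum_antidiagonal_swap (n := t)
    (f := fun p : ℕ × ℕ => aa (n+2) p.1 * aa n p.2 - aa (n+1) p.1 * aa (n+1) p.2)
  simp only [Prod.fst_swap, Prod.snd_swap] at hs
  have h1 : ((n:ℤ)+2)^4 * (n+1)^3 * 2 *
      ∑ p ∈ antidiagonal t, (aa (n+2) p.1 * aa n p.2 - aa (n+1) p.1 * aa (n+1) p.2)
      = ∑ p ∈ antidiagonal t, cc n p.1 * cc n p.2 * PP (n+2) p.1 p.2 := by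
    simp only [← pt]
    rw [← Finset.mul_sum, Finset.sum_add_distrib, hs]
    ring
  have h2 := tele n t (SS t (2*(n+2)-t))
  have h3 : 0 ≤ ∑ p ∈ antidiagonal t, cc n p.1 * cc n p.2 * QQ (n+2) p.1 p.2 := by
    refine Finset.sum_nonneg fun p _ => ?_
    rcases le_or_gt p.1 (n+2) with a | a
    · rcases le_or_gt p.2 (n+2) with b | b
      · have := qnn (n+2) p.1 p.2 b a
        push_cast at this
        exact mul_nonneg (mul_nonneg (cc_nn _ _) (cc_nn _ _)) this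
      · simp [cc, Nat.choose_eq_zero_of_lt b]
    · simp [cc, Nat.choose_eq_zero_of_lt a]
  have h4 : ∑ p ∈ antidiagonal t, cc n p.1 * cc n p.2 * QQ (n+2) p.1 p.2 =
      DD t * ∑ p ∈ antidiagonal t, cc n p.1 * cc n p.2 * PP (n+2) p.1 p.2 + 0 := by
    rw [← h2, Finset.mul_sum, ← Finset.sum_add_distrib]
    refine Finset.sum_congr rfl fun p hp => ?_
    have : (t:ℤ) = p.1 + p.2 := by
      have := HasAntidiagonal.mem_antidiagonal.1 hp
      exact_mod_cast this.symm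
    rw [this]; unfold QQ; ring
  rw [h4, ← h1, add_zero, ← mul_assoc] at h3
  exact nonneg_of_mul_nonneg_right h3 hK |> fun h => h

end Pool.Agent.H.MP_f59cb1_co
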